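import Pool.Agent.H55.Nuc2

set_option autoImplicit false

namespace Pool.Agent.Results.MP_7eb7a8_an.NuclearIff

open Pool.Agent.H84.FlcDefs

theorem result (X : Type) [TopologicalSpace X] :
    @MultiHilbert (X →₀ ℝ) _ _ (freeTop X) → @Nuclear (X →₀ ℝ) _ _ (freeTop X) :=
  Pool.Agent.H55.Nuc.main

end Pool.Agent.Results.MP_7eb7a8_an.NuclearIff
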